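import Pool.Agent.Helper60.L1Full.Stmts2

namespace DualL1

open MeasureTheory Cardinal Set
open scoped ENNReal Classical symmDiff

universe u

section MAC

variable {I : Type u}

/-- override the coordinates in `F` by the indicator of `G` -/
noncomputable def MAC_ov (F G : Finset I) (x : I → Bool) : I → Bool :=
  fun j => if j ∈ F then decide (j ∈ G) else x j

/-- flip the coordinates in `H` -/
noncomputable def MAC_flip (H : Finset I) (x : I → Bool) : I → Bool :=
  fun j => if j ∈ H then !(x j) else x j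

lemma MAC_ov_meas (F G : Finset I) : Measurable (MAC_ov F G) := by
  rw [measurable_pi_iff]
  intro j
  unfold MAC_ov
  by_cases h : j ∈ F
  · simp only [h, if_true]
    exact measurable_const
  · simp only [h, if_false]
    exact measurable_pi_apply j

lemma MAC_coin_not : coin.map (fun b : Bool => !b) = coin := by
  unfold coin
  rw [Measure.map_add _ _ (measurable_of_finite _), Measure.map_smul, Measure.map_smul,
    Measure.map_dirac' (measurable_of_finite _), Measure.map_dirac' (measurable_of_finite _)]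
  rw [add_comm]
  rfl

lemma MAC_flip_mp (H : Finset I) : MeasurePreserving (MAC_flip H) (coinPi I) (coinPi I) := by
  have hm : Measurable (MAC_flip H) := by
    rw [measurable_pi_iff]
    intro j
    unfold MAC_flip
    by_cases h : j ∈ H
    · simp only [h, if_true]
      exact (measurable_of_finite (fun b : Bool => !b)).comp (measurable_pi_apply j)
    · simp only [h, if_false]
      exact measurable_pi_apply j
  refine ⟨hm, ?_⟩
  unfold coinPi
  have h1 := Measure.infinitePi_map_pi (μ := fun _ : I => coin)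
    (f := fun (j : I) (b : Bool) => if j ∈ H then !b else b)
    (fun j => measurable_of_finite _)
  have h2 : (fun (x : I → Bool) (i : I) => (fun (j : I) (b : Bool) => if j ∈ H then !b else b) i (x i))
      = MAC_flip H := rfl
  rw [h2] at h1
  rw [h1]
  congr 1
  funext j
  by_cases h : j ∈ H
  · simp only [h, if_true]
    exact MAC_coin_not
  · simp only [h, if_false]
    exact Measure.map_id

lemma MAC_ov_le (F G : Finset I) {S : Set (I → Bool)} (hS : MeasurableSet S) :
    coinPi I {x | MAC_ov F G x ∈ S} ≤ 2 ^ F.card * coinPi I S := by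
  have h1 : {x | MAC_ov F G x ∈ S} ⊆ ⋃ H ∈ F.powerset, MAC_flip H ⁻¹' S := by
    intro x hx
    rw [mem_iUnion₂]
    refine ⟨F.filter (fun j => x j ≠ decide (j ∈ G)), Finset.mem_powerset.mpr
      (Finset.filter_subset _ _), ?_⟩
    have h2 : MAC_flip (F.filter (fun j => x j ≠ decide (j ∈ G))) x = MAC_ov F G x := by
      funext j
      unfold MAC_flip MAC_ov
      by_cases hj : j ∈ F
      · by_cases hj2 : x j = decide (j ∈ G)
        · rw [if_neg (by rw [Finset.mem_filter]; exact fun h => h.2 hj2), if_pos hj, hj2]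
        · rw [if_pos (Finset.mem_filter.mpr ⟨hj, hj2⟩), if_pos hj]
          revert hj2
          cases x j <;> cases decide (j ∈ G) <;> simp
      · rw [if_neg (fun h => hj (Finset.mem_filter.mp h).1), if_neg hj]
    rw [mem_preimage, h2]
    exact hx
  refine le_trans (measure_mono h1) (le_trans (measure_biUnion_finset_le _ _) ?_)
  have h3 : ∀ H ∈ F.powerset, coinPi I (MAC_flip H ⁻¹' S) = coinPi I S :=
    fun H _ => (MAC_flip_mp H).measure_preimage hS.nullMeasurableSet
  rw [Finset.sum_congr rfl h3, Finset.sum_const, Finset.card_powerset, nsmul_eq_mul]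
  push_cast
  exact le_rfl

/-- the points at which all patterns on `F` are realised -/
def MAC_W (f : I → (I → Bool) → ℝ) (r s : ℝ) (F : Finset I) : Set (I → Bool) :=
  {x | ∀ G ∈ F.powerset, ∀ i ∈ F,
    if i ∈ G then s < f i (MAC_ov F G x) else f i (MAC_ov F G x) < r}

variable {f : I → (I → Bool) → ℝ} {r s : ℝ}

lemma MAC_W_meas (hf : ∀ i, Measurable (f i)) (F : Finset I) : MeasurableSet (MAC_W f r s F) := by
  have h1 : MAC_W f r s F = ⋂ G ∈ F.powerset, ⋂ i ∈ F,
      {x | if i ∈ G then s < f i (MAC_ov F G x) else f i (MAC_ov F G x) < r} := by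
    ext x
    unfold MAC_W
    simp only [mem_ofPred_eq, mem_iInter]
  rw [h1]
  refine Finset.measurableSet_biInter _ fun G _ => Finset.measurableSet_biInter _ fun i _ => ?_
  have h2 : Measurable fun x => f i (MAC_ov F G x) := (hf i).comp (MAC_ov_meas F G)
  by_cases h : i ∈ G
  · simp only [h, if_true]
    exact measurableSet_lt measurable_const h2
  · simp only [h, if_false]
    exact measurableSet_lt h2 measurable_const

lemma MAC_W_mono {F F' : Finset I} (h : F' ⊆ F) : MAC_W f r s F ⊆ MAC_W f r s F' := by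
  intro x hx G' hG' i hi
  rw [Finset.mem_powerset] at hG'
  set G := G' ∪ F.filter (fun j => j ∉ F' ∧ x j = true) with hG
  have hGF : G ∈ F.powerset := by
    rw [Finset.mem_powerset, hG]
    exact Finset.union_subset (hG'.trans h) (Finset.filter_subset _ _)
  have h1 : MAC_ov F G x = MAC_ov F' G' x := by
    funext j
    unfold MAC_ov
    by_cases hj : j ∈ F
    · rw [if_pos hj]
      by_cases hj' : j ∈ F'
      · rw [if_pos hj']
        congr 1
        rw [hG, Finset.mem_union, Finset.mem_filter]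
        simp [hj']
      · rw [if_neg hj']
        have hjG : j ∉ G' := fun hc => hj' (hG' hc)
        cases hx' : x j
        · apply decide_eq_false
          rw [hG, Finset.mem_union, Finset.mem_filter]
          simp [hjG, hx']
        · apply decide_eq_true
          rw [hG, Finset.mem_union, Finset.mem_filter]
          simp [hj, hj', hx']
    · rw [if_neg hj, if_neg (fun hc => hj (h hc))]
  have h2 := hx G hGF i (h hi)
  rw [h1] at h2
  have h3 : i ∈ G ↔ i ∈ G' := by
    rw [hG, Finset.mem_union, Finset.mem_filter]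
    simp [hi]
  by_cases h4 : i ∈ G'
  · rw [if_pos h4]
    rwa [if_pos (h3.mpr h4)] at h2
  · rw [if_neg h4]
    rwa [if_neg (fun hc => h4 (h3.mp hc))] at h2

lemma MAC_W_union_aux {F F' : Finset I} {x : I → Bool}
    (h1 : ∀ G ∈ (F' \ F).powerset, MAC_ov (F' \ F) G x ∈ MAC_W f r s F) {G : Finset I} {i : I}
    (hi : i ∈ F) :
    if i ∈ G then s < f i (MAC_ov (F ∪ F') G x) else f i (MAC_ov (F ∪ F') G x) < r := by
  have h2 := h1 (G ∩ (F' \ F)) (Finset.mem_powerset.mpr Finset.inter_subset_right)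
    (G ∩ F) (Finset.mem_powerset.mpr Finset.inter_subset_right) i hi
  have h3 : MAC_ov F (G ∩ F) (MAC_ov (F' \ F) (G ∩ (F' \ F)) x) = MAC_ov (F ∪ F') G x := by
    funext j
    unfold MAC_ov
    by_cases hj : j ∈ F
    · rw [if_pos hj, if_pos (Finset.mem_union_left _ hj)]
      congr 1
      rw [Finset.mem_inter]
      simp [hj]
    · rw [if_neg hj]
      by_cases hj' : j ∈ F'
      · rw [if_pos (Finset.mem_sdiff.mpr ⟨hj', hj⟩), if_pos (Finset.mem_union_right _ hj')]
        congr 1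
        rw [Finset.mem_inter, Finset.mem_sdiff]
        simp [hj, hj']
      · rw [if_neg (fun hc => hj' (Finset.mem_sdiff.mp hc).1), if_neg]
        intro hc
        rcases Finset.mem_union.mp hc with hc | hc
        · exact hj hc
        · exact hj' hc
  rw [h3] at h2
  have h4 : i ∈ G ∩ F ↔ i ∈ G := by
    rw [Finset.mem_inter]
    simp [hi]
  by_cases h5 : i ∈ G
  · rw [if_pos h5]
    rwa [if_pos (h4.mpr h5)] at h2
  · rw [if_neg h5]
    rwa [if_neg (fun hc => h5 (h4.mp hc))] at h2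

lemma MAC_W_union {F F' : Finset I} {x : I → Bool}
    (h1 : ∀ G ∈ (F' \ F).powerset, MAC_ov (F' \ F) G x ∈ MAC_W f r s F)
    (h2 : ∀ G ∈ (F \ F').powerset, MAC_ov (F \ F') G x ∈ MAC_W f r s F') :
    x ∈ MAC_W f r s (F ∪ F') := by
  intro G _ i hi
  rcases Finset.mem_union.mp hi with hi | hi
  · exact MAC_W_union_aux h1 hi
  · rw [Finset.union_comm]
    exact MAC_W_union_aux h2 hi

/-- good finite sets realise all patterns -/
lemma MAC_pattern (hf : ∀ i, Measurable (f i)) {F : Finset I} (hF : 0 < coinPi I (MAC_W f r s F))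
    (ε : I → Bool) :
    0 < coinPi I {x | ∀ i ∈ F, if ε i = true then s < f i x else f i x < r} := by
  set S : Set (I → Bool) := {x | ∀ i ∈ F, if ε i = true then s < f i x else f i x < r} with hS
  have hSm : MeasurableSet S := by
    have h1 : S = ⋂ i ∈ F, {x | if ε i = true then s < f i x else f i x < r} := by
      ext x
      rw [hS]
      simp only [mem_ofPred_eq, mem_iInter]
    rw [h1]
    refine Finset.measurableSet_biInter _ fun i _ => ?_
    by_cases h : ε i = true
    · simp only [h, if_true]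
      exact measurableSet_lt measurable_const (hf i)
    · simp only [h]
      exact measurableSet_lt (hf i) measurable_const
  have h2 : MAC_W f r s F ⊆ {x | MAC_ov F (F.filter fun i => ε i = true) x ∈ S} := by
    intro x hx i hi
    have h3 := hx (F.filter fun i => ε i = true) (Finset.mem_powerset.mpr
      (Finset.filter_subset _ _)) i hi
    by_cases h : ε i = true
    · rw [if_pos h]
      rwa [if_pos (Finset.mem_filter.mpr ⟨hi, h⟩)] at h3
    · rw [if_neg h]
      have hn : i ∉ F.filter fun i => ε i = true := fun hc => h (Finset.mem_filter.mp hc).2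
      rwa [if_neg hn] at h3
  have h4 := le_trans (measure_mono h2) (MAC_ov_le F (F.filter fun i => ε i = true) hSm)
  rw [pos_iff_ne_zero]
  intro h0
  rw [h0, mul_zero] at h4
  exact absurd hF (not_lt.mpr h4)

/-- stability under changes of coordinates outside of `D` -/
lemma MAC_stab {W g : Set (I → Bool)} (hW : MeasurableSet W) (hg : MeasurableSet g)
    {D E : Finset I} (hD : ∀ x y : I → Bool, (∀ j ∈ D, x j = y j) → (x ∈ g → y ∈ g))
    (hDE : ∀ j ∈ E, j ∉ D) {η : ℝ≥0∞} (h : coinPi I (W ∆ g) ≤ η) :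
    coinPi I (W \ {x | ∀ G ∈ E.powerset, MAC_ov E G x ∈ W}) ≤ (1 + 4 ^ E.card) * η := by
  have h1 : W \ {x | ∀ G ∈ E.powerset, MAC_ov E G x ∈ W} ⊆
      (W ∆ g) ∪ ⋃ G ∈ E.powerset, {x | MAC_ov E G x ∈ W ∆ g} := by
    intro x hx
    obtain ⟨hxW, hx2⟩ := hx
    rw [mem_ofPred_eq] at hx2
    push Not at hx2
    obtain ⟨G, hG, hGx⟩ := hx2
    by_cases hxg : x ∈ g
    · right
      rw [mem_iUnion₂]
      refine ⟨G, hG, ?_⟩
      have h2 : MAC_ov E G x ∈ g := by
        apply hD x _ _ hxg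
        intro j hj
        unfold MAC_ov
        rw [if_neg (fun hc => hDE j hc hj)]
      rw [mem_ofPred_eq, Set.mem_symmDiff]
      exact Or.inr ⟨h2, hGx⟩
    · left
      rw [Set.mem_symmDiff]
      exact Or.inl ⟨hxW, hxg⟩
  have hm : MeasurableSet (W ∆ g) := hW.symmDiff hg
  refine le_trans (measure_mono h1) (le_trans (measure_union_le _ _) ?_)
  have h3 : coinPi I (⋃ G ∈ E.powerset, {x | MAC_ov E G x ∈ W ∆ g}) ≤ 4 ^ E.card * η := by
    refine le_trans (measure_biUnion_finset_le _ _) ?_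
    calc ∑ G ∈ E.powerset, coinPi I {x | MAC_ov E G x ∈ W ∆ g}
        ≤ ∑ _G ∈ E.powerset, 2 ^ E.card * η := by
          apply Finset.sum_le_sum
          intro G _
          exact le_trans (MAC_ov_le E G hm) (by gcongr)
      _ = 4 ^ E.card * η := by
          rw [Finset.sum_const, Finset.card_powerset, nsmul_eq_mul]
          push_cast
          rw [← mul_assoc, ← mul_pow]
          norm_num
  calc coinPi I (W ∆ g) + coinPi I (⋃ G ∈ E.powerset, {x | MAC_ov E G x ∈ W ∆ g})
      ≤ η + 4 ^ E.card * η := add_le_add h h3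
    _ = (1 + 4 ^ E.card) * η := by rw [add_mul, one_mul]

/-- approximation by sets depending on finitely many coordinates -/
lemma MAC_approx {W : Set (I → Bool)} (hW : MeasurableSet W) {η : ℝ≥0∞} (hη : 0 < η) :
    ∃ (D : Finset I) (g : Set (I → Bool)), MeasurableSet g ∧
      (∀ x y : I → Bool, (∀ j ∈ D, x j = y j) → (x ∈ g → y ∈ g)) ∧ coinPi I (W ∆ g) ≤ η := by
  obtain ⟨g, hg, hlt⟩ := exists_measure_symmDiff_lt_of_generateFrom_isSetRing
    (μ := coinPi I) (C := measurableCylinders (fun _ : I => Bool))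
    isSetRing_measurableCylinders
    ⟨{Set.univ}, Set.countable_singleton _, by
      rw [Set.singleton_subset_iff]
      exact univ_mem_measurableCylinders _, by simp⟩
    generateFrom_measurableCylinders.symm hW hη
  obtain ⟨D, S, hS, hgS⟩ := (mem_measurableCylinders g).mp hg
  refine ⟨D, g, MeasurableSet.of_mem_measurableCylinders hg, ?_, ?_⟩
  · intro x y hxy hx
    rw [hgS, mem_cylinder] at hx ⊢
    have : D.restrict x = D.restrict y := by
      funext j
      exact hxy j.1 j.2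
    rwa [← this]
  · rw [symmDiff_comm]
    exact hlt.le

/-! ### combinatorics -/

lemma MAC_root {α : Type*} {𝒮 : Set α} (h𝒮 : 𝒮.Infinite) (A : α → Finset I) (K : ℕ)
    (hA : ∀ a ∈ 𝒮, (A a).card ≤ K) :
    ∃ R : Finset I, {a ∈ 𝒮 | R ⊆ A a}.Infinite ∧
      ∀ i ∉ R, {a ∈ 𝒮 | insert i R ⊆ A a}.Finite := by
  by_contra hcon
  push Not at hcon
  have h1 : ∀ n : ℕ, ∃ R : Finset I, R.card = n ∧ {a ∈ 𝒮 | R ⊆ A a}.Infinite := by
    intro n
    induction n with
    | zero =>
      refine ⟨∅, rfl, ?_⟩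
      have : {a ∈ 𝒮 | (∅ : Finset I) ⊆ A a} = 𝒮 := by
        ext a
        simp
      rw [this]
      exact h𝒮
    | succ n ih =>
      obtain ⟨R, hR, hinf⟩ := ih
      obtain ⟨i, hi, hinf'⟩ := hcon R hinf
      exact ⟨insert i R, by rw [Finset.card_insert_of_notMem hi, hR], hinf'⟩
  obtain ⟨R, hR, hinf⟩ := h1 (K + 1)
  obtain ⟨a, ha⟩ := hinf.nonempty
  have h2 := Finset.card_le_card ha.2
  have h3 := hA a ha.1
  omega

lemma MAC_greedy {α : Type*} {𝒮 : Set α} (h𝒮 : 𝒮.Infinite) (A : α → Finset I) (R : Finset I)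
    (h : ∀ i ∉ R, {a ∈ 𝒮 | i ∈ A a}.Finite) (N : ℕ) :
    ∃ T : Finset α, T.card = N ∧ (∀ a ∈ T, a ∈ 𝒮) ∧
      ∀ a ∈ T, ∀ b ∈ T, a ≠ b → A a ∩ A b ⊆ R := by
  induction N with
  | zero => exact ⟨∅, rfl, by simp, by simp⟩
  | succ N ih =>
    obtain ⟨T, hT, hT𝒮, hTR⟩ := ih
    set B : Set α := ↑T ∪ ⋃ a ∈ T, ⋃ i ∈ (A a \ R), {b ∈ 𝒮 | i ∈ A b} with hB
    have hBfin : B.Finite := by
      apply T.finite_toSet.union
      apply Set.Finite.biUnion T.finite_toSet
      intro a _
      apply Set.Finite.biUnion (Finset.finite_toSet _)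
      intro i hi
      exact h i (Finset.mem_sdiff.mp hi).2
    obtain ⟨b, hb𝒮, hbB⟩ := (h𝒮.sdiff hBfin).nonempty
    rw [hB, Set.mem_union, not_or] at hbB
    obtain ⟨hbT, hbU⟩ := hbB
    have hbT' : b ∉ T := hbT
    have hkey : ∀ a ∈ T, A a ∩ A b ⊆ R := by
      intro a ha i hi
      by_contra hiR
      apply hbU
      rw [Finset.mem_inter] at hi
      exact Set.mem_biUnion ha (Set.mem_biUnion (Finset.mem_sdiff.mpr ⟨hi.1, hiR⟩)
        ⟨hb𝒮, hi.2⟩)
    refine ⟨insert b T, by rw [Finset.card_insert_of_notMem hbT', hT], ?_, ?_⟩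
    · intro a ha
      rcases Finset.mem_insert.mp ha with rfl | ha
      · exact hb𝒮
      · exact hT𝒮 a ha
    · intro a ha c hc hac
      rcases Finset.mem_insert.mp ha with ha | ha
      · rcases Finset.mem_insert.mp hc with hc | hc
        · exact absurd (ha.trans hc.symm) hac
        · rw [ha, Finset.inter_comm]
          exact hkey c hc
      · rcases Finset.mem_insert.mp hc with hc | hc
        · rw [hc]
          exact hkey a ha
        · exact hTR a ha c hc hac

lemma MAC_pair {α Ω : Type*} [MeasurableSpace Ω] (μ : Measure Ω) [IsProbabilityMeasure μ]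
    (T : Finset α) (W : α → Set Ω) (hW : ∀ a ∈ T, MeasurableSet (W a)) (p : ℝ) (hp : 0 < p)
    (hWp : ∀ a ∈ T, p ≤ μ.real (W a)) (hT : 2 < T.card * p ^ 2) :
    ∃ a ∈ T, ∃ b ∈ T, a ≠ b ∧ p ^ 2 / 2 ≤ μ.real (W a ∩ W b) := by
  by_contra hcon
  push Not at hcon
  set h : Ω → ℝ := fun x => ∑ a ∈ T, (W a).indicator (fun _ => (1 : ℝ)) x with hh
  have hi1 : ∀ a ∈ T, Integrable ((W a).indicator (fun _ => (1 : ℝ))) μ := fun a ha =>
    (integrable_const 1).indicator (hW a ha)
  have hint : Integrable h μ := integrable_finsetSum _ hi1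
  have hI1 : ∫ x, h x ∂μ = ∑ a ∈ T, μ.real (W a) := by
    rw [hh, integral_finsetSum _ hi1]
    apply Finset.sum_congr rfl
    intro a ha
    rw [integral_indicator_const _ (hW a ha)]
    simp
  have hsq : ∀ x, h x ^ 2 = ∑ a ∈ T, ∑ b ∈ T, (W a ∩ W b).indicator (fun _ => (1 : ℝ)) x := by
    intro x
    rw [hh, sq, Finset.sum_mul_sum]
    apply Finset.sum_congr rfl
    intro a _
    apply Finset.sum_congr rfl
    intro b _
    by_cases h1 : x ∈ W a <;> by_cases h2 : x ∈ W b <;> simp [h1, h2]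
  have hi2 : ∀ a ∈ T, ∀ b ∈ T, Integrable ((W a ∩ W b).indicator (fun _ => (1 : ℝ))) μ :=
    fun a ha b hb => (integrable_const 1).indicator ((hW a ha).inter (hW b hb))
  have hint2 : Integrable (fun x => h x ^ 2) μ := by
    simp only [hsq]
    exact integrable_finsetSum _ fun a ha => integrable_finsetSum _ fun b hb => hi2 a ha b hb
  have hI2 : ∫ x, h x ^ 2 ∂μ = ∑ a ∈ T, ∑ b ∈ T, μ.real (W a ∩ W b) := by
    simp only [hsq]
    rw [integral_finsetSum _ fun a ha => integrable_finsetSum _ fun b hb => hi2 a ha b hb]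
    apply Finset.sum_congr rfl
    intro a ha
    rw [integral_finsetSum _ fun b hb => hi2 a ha b hb]
    apply Finset.sum_congr rfl
    intro b hb
    rw [integral_indicator_const _ ((hW a ha).inter (hW b hb))]
    simp
  set c : ℝ := ∫ x, h x ∂μ with hc
  have hvar : 0 ≤ ∫ x, (h x - c) ^ 2 ∂μ := integral_nonneg fun x => sq_nonneg _
  have hexp : ∫ x, (h x - c) ^ 2 ∂μ = ∫ x, h x ^ 2 ∂μ - c ^ 2 := by
    have h1 : ∀ x, (h x - c) ^ 2 = h x ^ 2 - 2 * c * h x + c ^ 2 := fun x => by ring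
    simp only [h1]
    have e1 : ∫ x, (h x ^ 2 - 2 * c * h x + c ^ 2) ∂μ =
        ∫ x, (h x ^ 2 - 2 * c * h x) ∂μ + ∫ _x, c ^ 2 ∂μ :=
      integral_add (f := fun x => h x ^ 2 - 2 * c * h x) (g := fun _ => c ^ 2)
        (hint2.sub (hint.const_mul (2 * c))) (integrable_const _)
    have e2 : ∫ x, (h x ^ 2 - 2 * c * h x) ∂μ = ∫ x, h x ^ 2 ∂μ - ∫ x, 2 * c * h x ∂μ :=
      integral_sub hint2 (hint.const_mul (2 * c))
    rw [e1, e2, integral_const_mul, integral_const, ← hc]
    simp
    ring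
  rw [hexp] at hvar
  have hcN : T.card * p ≤ c := by
    rw [hI1]
    have := Finset.sum_le_sum hWp
    rwa [Finset.sum_const, nsmul_eq_mul] at this
  have hup : ∫ x, h x ^ 2 ∂μ ≤ T.card * (1 + T.card * (p ^ 2 / 2)) := by
    rw [hI2]
    have h2 : ∀ a ∈ T, ∑ b ∈ T, μ.real (W a ∩ W b) ≤ 1 + T.card * (p ^ 2 / 2) := by
      intro a ha
      rw [← Finset.add_sum_erase _ _ ha]
      have h3 : μ.real (W a ∩ W a) ≤ 1 := measureReal_le_one
      have h4 : ∑ b ∈ T.erase a, μ.real (W a ∩ W b) ≤ ∑ _b ∈ T.erase a, p ^ 2 / 2 := by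
        apply Finset.sum_le_sum
        intro b hb
        rw [Finset.mem_erase] at hb
        exact (hcon a ha b hb.2 hb.1.symm).le
      rw [Finset.sum_const, nsmul_eq_mul] at h4
      have h5 : ((T.erase a).card : ℝ) ≤ T.card := by
        exact_mod_cast Finset.card_le_card (Finset.erase_subset _ _)
      have h6 : ((T.erase a).card : ℝ) * (p ^ 2 / 2) ≤ T.card * (p ^ 2 / 2) :=
        mul_le_mul_of_nonneg_right h5 (by positivity)
      linarith
    have := Finset.sum_le_sum h2
    rwa [Finset.sum_const, nsmul_eq_mul] at this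
  have hN : (0 : ℝ) < T.card := by
    by_contra h0
    push Not at h0
    have : (T.card : ℝ) * p ^ 2 ≤ 0 := mul_nonpos_of_nonpos_of_nonneg h0 (by positivity)
    linarith
  have h7 : (T.card * p) ^ 2 ≤ c ^ 2 := pow_le_pow_left₀ (by positivity) hcN 2
  have h8 : (T.card * p) ^ 2 ≤ T.card * (1 + T.card * (p ^ 2 / 2)) := by linarith
  have h9 : T.card * (T.card * p ^ 2) ≤ T.card * (1 + T.card * (p ^ 2 / 2)) := by
    calc T.card * (T.card * p ^ 2) = (T.card * p) ^ 2 := by ring
      _ ≤ _ := h8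
  have h10 := le_of_mul_le_mul_left h9 hN
  linarith

/-- the poset of good sets satisfies the countable chain condition -/
lemma MAC_ccc (hf : ∀ i, Measurable (f i)) {𝒜 : Set (Finset I)} (h𝒜 : ¬ 𝒜.Countable)
    (hg : ∀ F ∈ 𝒜, 0 < coinPi I (MAC_W f r s F)) :
    ∃ F ∈ 𝒜, ∃ F' ∈ 𝒜, F ≠ F' ∧ 0 < coinPi I (MAC_W f r s (F ∪ F')) := by
  set p : ℕ → ℝ := fun n => 1 / ((n : ℝ) + 1) with hp
  have hp0 : ∀ n, 0 < p n := fun n => by rw [hp]; positivity
  set η : ℕ → ℕ → ℝ := fun n k => p n ^ 2 / (8 * (1 + 4 ^ k)) with hη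
  have hη0 : ∀ n k, 0 < η n k := fun n k => by
    have := hp0 n
    rw [hη]; positivity
  have happ : ∀ (n k : ℕ) (F : Finset I), ∃ (D : Finset I) (g : Set (I → Bool)),
      MeasurableSet g ∧ (∀ x y : I → Bool, (∀ j ∈ D, x j = y j) → (x ∈ g → y ∈ g)) ∧
        coinPi I (MAC_W f r s F ∆ g) ≤ ENNReal.ofReal (η n k) := fun n k F =>
    MAC_approx (MAC_W_meas hf F) (ENNReal.ofReal_pos.mpr (hη0 n k))
  choose D g hgm hgD hgη using happ
  -- pigeonhole
  obtain ⟨n, k, m, hinf⟩ : ∃ n k m : ℕ, {F ∈ 𝒜 | p n ≤ (coinPi I).real (MAC_W f r s F) ∧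
      F.card = k ∧ (D n k F).card = m}.Infinite := by
    by_contra hcon
    push Not at hcon
    apply h𝒜
    have h1 : 𝒜 ⊆ ⋃ n : ℕ, ⋃ k : ℕ, ⋃ m : ℕ,
        {F ∈ 𝒜 | p n ≤ (coinPi I).real (MAC_W f r s F) ∧ F.card = k ∧ (D n k F).card = m} := by
      intro F hF
      have h2 : 0 < (coinPi I).real (MAC_W f r s F) :=
        ENNReal.toReal_pos (hg F hF).ne' (measure_ne_top _ _)
      obtain ⟨n, hn⟩ := exists_nat_one_div_lt h2
      simp only [mem_iUnion]
      exact ⟨n, F.card, (D n F.card F).card, hF, hn.le, rfl, rfl⟩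
    refine Set.Countable.mono h1 ?_
    refine Set.countable_iUnion fun n => Set.countable_iUnion fun k => Set.countable_iUnion fun m => ?_
    exact (hcon n k m).countable
  set 𝒮 := {F ∈ 𝒜 | p n ≤ (coinPi I).real (MAC_W f r s F) ∧ F.card = k ∧ (D n k F).card = m}
    with h𝒮
  set A : Finset I → Finset I := fun F => F ∪ D n k F with hA
  obtain ⟨R, hRinf, hR⟩ := MAC_root hinf A (k + m) (by
    intro F hF
    rw [hA]
    refine le_trans (Finset.card_union_le _ _) ?_
    rw [hF.2.2.1, hF.2.2.2])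
  -- fix the trace on the root
  obtain ⟨R0, hR0⟩ : ∃ R0 : Finset I, {F ∈ 𝒮 | R ⊆ A F ∧ F ∩ R = R0}.Infinite := by
    by_contra hcon
    push Not at hcon
    apply hRinf
    have h1 : {F ∈ 𝒮 | R ⊆ A F} ⊆ ⋃ R0 ∈ R.powerset, {F ∈ 𝒮 | R ⊆ A F ∧ F ∩ R = R0} := by
      intro F hF
      rw [mem_iUnion₂]
      exact ⟨F ∩ R, Finset.mem_powerset.mpr Finset.inter_subset_right, hF.1, hF.2, rfl⟩
    exact Set.Finite.subset (Set.Finite.biUnion (Finset.finite_toSet _) fun R0 _ => hcon R0) h1
  obtain ⟨N, hN⟩ := exists_nat_gt (2 / p n ^ 2)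
  obtain ⟨T, hTN, hT𝒮, hTR⟩ := MAC_greedy hR0 A R (by
    intro i hi
    refine (hR i hi).subset ?_
    intro F hF
    exact ⟨hF.1.1, Finset.insert_subset hF.2 hF.1.2.1⟩) N
  have hp2 : 0 < p n ^ 2 := by have := hp0 n; positivity
  obtain ⟨F, hF, F', hF', hne, hFF'⟩ := MAC_pair (coinPi I) T (fun F => MAC_W f r s F)
    (fun F _ => MAC_W_meas hf F) (p n) (hp0 n) (fun F hF => (hT𝒮 F hF).1.2.1) (by
      rw [hTN]
      rwa [div_lt_iff₀ hp2] at hN)
  refine ⟨F, (hT𝒮 F hF).1.1, F', (hT𝒮 F' hF').1.1, hne, ?_⟩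
  -- stability
  have hstab : ∀ F ∈ T, ∀ F' ∈ T, F ≠ F' → coinPi I (MAC_W f r s F \
      {x | ∀ G ∈ (F' \ F).powerset, MAC_ov (F' \ F) G x ∈ MAC_W f r s F}) ≤
        ENNReal.ofReal (p n ^ 2 / 8) := by
    intro F hF F' hF' hne
    have hdisj : ∀ j ∈ F' \ F, j ∉ D n k F := by
      intro j hj hjD
      rw [Finset.mem_sdiff] at hj
      have h1 : j ∈ R := hTR F hF F' hF' hne (Finset.mem_inter.mpr
        ⟨Finset.mem_union_right _ hjD, Finset.mem_union_left _ hj.1⟩)
      have h2 : j ∈ F' ∩ R := Finset.mem_inter.mpr ⟨hj.1, h1⟩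
      rw [(hT𝒮 F' hF').2.2, ← (hT𝒮 F hF).2.2] at h2
      exact hj.2 (Finset.mem_inter.mp h2).1
    refine le_trans (MAC_stab (MAC_W_meas hf F) (hgm n k F) (hgD n k F) hdisj (hgη n k F)) ?_
    have h3 : (F' \ F).card ≤ k := by
      rw [← (hT𝒮 F' hF').1.2.2.1]
      exact Finset.card_le_card Finset.sdiff_subset
    calc (1 + 4 ^ (F' \ F).card) * ENNReal.ofReal (η n k)
        ≤ (1 + 4 ^ k) * ENNReal.ofReal (η n k) := by
          gcongr
          norm_num
      _ = ENNReal.ofReal (p n ^ 2 / 8) := by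
          have h4 : (1 + 4 ^ k : ℝ≥0∞) = ENNReal.ofReal (1 + 4 ^ k) := by
            rw [ENNReal.ofReal_add (by norm_num) (by positivity), ENNReal.ofReal_one,
              ENNReal.ofReal_pow (by norm_num)]
            norm_num
          rw [h4, ← ENNReal.ofReal_mul (by positivity)]
          congr 1
          rw [hη]
          field_simp
  rw [pos_iff_ne_zero]
  intro h0
  have hsub : MAC_W f r s F ∩ MAC_W f r s F' ⊆ MAC_W f r s (F ∪ F') ∪
      ((MAC_W f r s F \
      {x | ∀ G ∈ (F' \ F).powerset, MAC_ov (F' \ F) G x ∈ MAC_W f r s F}) ∪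
      (MAC_W f r s F' \
      {x | ∀ G ∈ (F \ F').powerset, MAC_ov (F \ F') G x ∈ MAC_W f r s F'})) := by
    intro x hx
    by_cases h1 : ∀ G ∈ (F' \ F).powerset, MAC_ov (F' \ F) G x ∈ MAC_W f r s F
    · by_cases h2 : ∀ G ∈ (F \ F').powerset, MAC_ov (F \ F') G x ∈ MAC_W f r s F'
      · exact Or.inl (MAC_W_union h1 h2)
      · exact Or.inr (Or.inr ⟨hx.2, h2⟩)
    · exact Or.inr (Or.inl ⟨hx.1, h1⟩)
  have hle : coinPi I (MAC_W f r s F ∩ MAC_W f r s F') ≤ ENNReal.ofReal (p n ^ 2 / 4) := by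
    refine le_trans (measure_mono hsub) (le_trans (measure_union_le _ _) ?_)
    rw [h0, zero_add]
    refine le_trans (measure_union_le _ _) ?_
    refine le_trans (add_le_add (hstab F hF F' hF' hne) (hstab F' hF' F hF hne.symm)) ?_
    rw [← ENNReal.ofReal_add (by positivity) (by positivity)]
    apply ENNReal.ofReal_le_ofReal
    linarith
  have hle2 : (coinPi I).real (MAC_W f r s F ∩ MAC_W f r s F') ≤ p n ^ 2 / 4 :=
    ENNReal.toReal_le_of_le_ofReal (by positivity) hle
  linarith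

/-- indexed version -/
lemma MAC_ccc' {ι : Type*} (hf : ∀ i, Measurable (f i)) {A : Set ι} (hA : ¬ A.Countable)
    (q : ι → Finset I) (hg : ∀ i ∈ A, 0 < coinPi I (MAC_W f r s (q i))) :
    ∃ i ∈ A, ∃ j ∈ A, i ≠ j ∧ 0 < coinPi I (MAC_W f r s (q i ∪ q j)) := by
  by_cases hinj : Set.InjOn q A
  · have h1 : ¬ (q '' A).Countable := by
      intro h2
      exact hA (Set.countable_of_injective_of_countable_image hinj h2)
    obtain ⟨F, ⟨i, hi, rfl⟩, F', ⟨j, hj, rfl⟩, hne, hpos⟩ := MAC_ccc hf h1 (by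
      rintro _ ⟨i, hi, rfl⟩
      exact hg i hi)
    exact ⟨i, hi, j, hj, fun h => hne (by rw [h]), hpos⟩
  · unfold Set.InjOn at hinj
    push Not at hinj
    obtain ⟨i, hi, j, hj, hij, hne⟩ := hinj
    refine ⟨i, hi, j, hj, hne, ?_⟩
    rw [← hij, Finset.union_idempotent]
    exact hg i hi

/-- (0) -/
lemma MAC_single (hf : ∀ i, Measurable (f i)) (hfi : ∀ i, Integrable (f i) (coinPi I)) (i : I)
    (hpos : 0 < ∫ x, f i x * (if x i = true then 1 else -1) ∂(coinPi I)) :
    ∃ q : ℚ × ℚ, q.1 < q.2 ∧ 0 < coinPi I (MAC_W f (q.1 : ℝ) (q.2 : ℝ) {i}) := by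
  by_contra hcon
  push Not at hcon
  have h1 : ∀ᵐ x ∂(coinPi I), ∀ q : ℚ × ℚ, q.1 < q.2 → x ∉ MAC_W f (q.1 : ℝ) (q.2 : ℝ) {i} := by
    rw [ae_all_iff]
    intro q
    by_cases hq : q.1 < q.2
    · have h2 : coinPi I (MAC_W f (q.1 : ℝ) (q.2 : ℝ) {i}) = 0 := le_antisymm (hcon q hq) zero_le
      filter_upwards [measure_eq_zero_iff_ae_notMem.mp h2] with x hx _
      exact hx
    · exact Filter.Eventually.of_forall fun x h => absurd h hq
  have h2 : ∀ᵐ x ∂(coinPi I), f i (MAC_ov {i} {i} x) ≤ f i (MAC_ov {i} ∅ x) := by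
    filter_upwards [h1] with x hx
    by_contra hlt
    push Not at hlt
    obtain ⟨a, ha1, ha2⟩ := exists_rat_btwn hlt
    obtain ⟨b, hb1, hb2⟩ := exists_rat_btwn ha2
    have hab : a < b := by exact_mod_cast hb1
    apply hx (a, b) hab
    intro G hG j hj
    rw [Finset.mem_singleton] at hj
    subst hj
    rw [Finset.mem_powerset, Finset.subset_singleton_iff] at hG
    rcases hG with rfl | rfl
    · rw [if_neg (Finset.notMem_empty _)]
      exact ha1
    · rw [if_pos (Finset.mem_singleton_self _)]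
      exact hb2
  have hmp := MAC_flip_mp ({i} : Finset I)
  have hsg : Measurable fun x : I → Bool => (if x i = true then (1 : ℝ) else -1) :=
    (measurable_of_finite (fun b : Bool => if b = true then (1 : ℝ) else -1)).comp
      (measurable_pi_apply i)
  have hintf : Integrable (fun x => f i x * (if x i = true then (1 : ℝ) else -1)) (coinPi I) := by
    refine (hfi i).mul_bdd (c := 1) hsg.aestronglyMeasurable (Filter.Eventually.of_forall fun x => ?_)
    by_cases h : x i = true <;> simp [h]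
  have h3 : ∫ x, f i x * (if x i = true then (1 : ℝ) else -1) ∂(coinPi I) =
      ∫ x, f i (MAC_flip {i} x) * (if (MAC_flip {i} x) i = true then (1 : ℝ) else -1) ∂(coinPi I) := by
    conv_lhs => rw [← hmp.map_eq]
    rw [integral_map hmp.measurable.aemeasurable]
    exact ((hf i).mul hsg).aestronglyMeasurable
  have hint2 : Integrable (fun x => f i (MAC_flip {i} x) *
      (if (MAC_flip {i} x) i = true then (1 : ℝ) else -1)) (coinPi I) :=
    hmp.integrable_comp_of_integrable hintf
  have h4 : ∀ x, f i x * (if x i = true then (1 : ℝ) else -1) +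
      f i (MAC_flip {i} x) * (if (MAC_flip {i} x) i = true then (1 : ℝ) else -1) =
      f i (MAC_ov {i} {i} x) - f i (MAC_ov {i} ∅ x) := by
    intro x
    have hfi' : MAC_flip {i} x i = !(x i) := by
      unfold MAC_flip
      rw [if_pos (Finset.mem_singleton_self _)]
    by_cases h : x i = true
    · have e1 : MAC_ov {i} {i} x = x := by
        funext j
        unfold MAC_ov
        by_cases hj : j = i
        · subst hj
          simp [h]
        · rw [if_neg (by rwa [Finset.mem_singleton])]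
      have e2 : MAC_ov {i} ∅ x = MAC_flip {i} x := by
        funext j
        unfold MAC_ov MAC_flip
        by_cases hj : j = i
        · subst hj
          simp [h]
        · rw [if_neg (by rwa [Finset.mem_singleton]), if_neg (by rwa [Finset.mem_singleton])]
      rw [e1, e2, hfi', h]
      simp
      ring
    · have h' : x i = false := by simpa using h
      have e1 : MAC_ov {i} {i} x = MAC_flip {i} x := by
        funext j
        unfold MAC_ov MAC_flip
        by_cases hj : j = i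
        · subst hj
          simp [h']
        · rw [if_neg (by rwa [Finset.mem_singleton]), if_neg (by rwa [Finset.mem_singleton])]
      have e2 : MAC_ov {i} ∅ x = x := by
        funext j
        unfold MAC_ov
        by_cases hj : j = i
        · subst hj
          simp [h']
        · rw [if_neg (by rwa [Finset.mem_singleton])]
      rw [e1, e2, hfi', h']
      simp
      ring
  have h5 : 2 * ∫ x, f i x * (if x i = true then (1 : ℝ) else -1) ∂(coinPi I) =
      ∫ x, (f i (MAC_ov {i} {i} x) - f i (MAC_ov {i} ∅ x)) ∂(coinPi I) := by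
    have h6 := integral_add hintf hint2
    rw [← h3] at h6
    rw [two_mul, ← h6]
    exact integral_congr_ae (Filter.Eventually.of_forall h4)
  have h7 : ∫ x, (f i (MAC_ov {i} {i} x) - f i (MAC_ov {i} ∅ x)) ∂(coinPi I) ≤ 0 := by
    apply integral_nonpos_of_ae
    filter_upwards [h2] with x hx
    simpa using hx
  linarith

/-- (5), first part -/
lemma MAC_cond (hf : ∀ i, Measurable (f i))
    (hJ : ¬ {i : I | 0 < coinPi I (MAC_W f r s {i})}.Countable) :
    ∃ p : Finset I, 0 < coinPi I (MAC_W f r s p) ∧ ∀ q : Finset I, p ⊆ q →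
      0 < coinPi I (MAC_W f r s q) → ∀ C : Set I, C.Countable →
        ∃ t : Finset I, q ⊆ t ∧ 0 < coinPi I (MAC_W f r s t) ∧ ∃ i ∈ t, i ∉ C := by
  by_contra hcon
  push Not at hcon
  have h3 : ∀ i ∈ {i : I | 0 < coinPi I (MAC_W f r s {i})}, ∃ (q : Finset I) (C : Set I),
      {i} ⊆ q ∧ 0 < coinPi I (MAC_W f r s q) ∧ C.Countable ∧
        ∀ t, q ⊆ t → 0 < coinPi I (MAC_W f r s t) → ∀ i ∈ t, i ∈ C := by
    intro i hi
    obtain ⟨q, hq1, hq2, C, hC, hC2⟩ := hcon {i} hi
    exact ⟨q, C, hq1, hq2, hC, hC2⟩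
  choose! q C hq1 hq2 hC hC2 using h3
  obtain ⟨A, hA⟩ := zorn_subset {A : Set I | A ⊆ {i : I | 0 < coinPi I (MAC_W f r s {i})} ∧
    ∀ i ∈ A, ∀ j ∈ A, i ≠ j → ¬ 0 < coinPi I (MAC_W f r s (q i ∪ q j))} (by
      intro c hc hchain
      refine ⟨⋃₀ c, ⟨Set.sUnion_subset fun A hA => (hc hA).1, ?_⟩, fun A hA =>
        Set.subset_sUnion_of_mem hA⟩
      rintro i ⟨A, hA, hiA⟩ j ⟨B, hB, hjB⟩ hij
      rcases hchain.total hA hB with h | h
      · exact (hc hB).2 i (h hiA) j hjB hij
      · exact (hc hA).2 i hiA j (h hjB) hij)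
  have hAc : A.Countable := by
    by_contra hAc
    obtain ⟨i, hi, j, hj, hij, hpos⟩ := MAC_ccc' hf hAc q (fun i hi => hq2 i (hA.1.1 hi))
    exact hA.1.2 i hi j hj hij hpos
  have hUc : (A ∪ ⋃ i ∈ A, C i).Countable :=
    hAc.union (hAc.biUnion fun i hi => hC i (hA.1.1 hi))
  obtain ⟨i, hiJ, hiU⟩ : ∃ i ∈ {i : I | 0 < coinPi I (MAC_W f r s {i})},
      i ∉ A ∪ ⋃ i ∈ A, C i := by
    by_contra h
    push Not at h
    exact hJ (hUc.mono h)
  rw [Set.mem_union, not_or] at hiU
  obtain ⟨hiA, hiC⟩ := hiU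
  have hnotin : ¬ (insert i A) ∈ {A : Set I | A ⊆ {i : I | 0 < coinPi I (MAC_W f r s {i})} ∧
      ∀ i ∈ A, ∀ j ∈ A, i ≠ j → ¬ 0 < coinPi I (MAC_W f r s (q i ∪ q j))} := by
    intro hin
    exact hiA (hA.2 hin (Set.subset_insert i A) (Set.mem_insert i A))
  apply hnotin
  have hkey : ∀ j ∈ A, ¬ 0 < coinPi I (MAC_W f r s (q i ∪ q j)) := by
    intro j hj hpos
    have h1 := hC2 j (hA.1.1 hj) (q i ∪ q j) Finset.subset_union_right hpos i
      (Finset.mem_union_left _ (hq1 i hiJ (Finset.mem_singleton_self i)))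
    exact hiC (Set.mem_biUnion hj h1)
  refine ⟨Set.insert_subset hiJ hA.1.1, ?_⟩
  intro j hj k hk hjk
  rcases Set.mem_insert_iff.mp hj with hj | hj
  · rcases Set.mem_insert_iff.mp hk with hk | hk
    · exact absurd (hj.trans hk.symm) hjk
    · rw [hj]
      exact hkey k hk
  · rcases Set.mem_insert_iff.mp hk with hk | hk
    · rw [hk, Finset.union_comm]
      exact hkey j hj
    · exact hA.1.2 j hj k hk hjk

theorem st_MAC : ST_MAC.{u} := by
  intro hMA I hI f hf hfi hpos
  have hunc : ¬ (Set.univ : Set I).Countable := by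
    rw [← Cardinal.le_aleph0_iff_set_countable, Cardinal.mk_univ, hI, not_le]
    exact Cardinal.aleph0_lt_aleph_one
  -- choice of the two levels
  obtain ⟨⟨r, s⟩, hrs, hJ⟩ : ∃ q : ℚ × ℚ, q.1 < q.2 ∧
      ¬ {i : I | 0 < coinPi I (MAC_W f (q.1 : ℝ) (q.2 : ℝ) {i})}.Countable := by
    by_contra hcon
    push Not at hcon
    apply hunc
    have h1 : (Set.univ : Set I) ⊆ ⋃ q : ℚ × ℚ, ⋃ _ : q.1 < q.2,
        {i : I | 0 < coinPi I (MAC_W f (q.1 : ℝ) (q.2 : ℝ) {i})} := by
      intro i _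
      obtain ⟨q, hq, hq2⟩ := MAC_single hf hfi i (hpos i)
      rw [Set.mem_iUnion₂]
      exact ⟨q, hq, hq2⟩
    exact Set.Countable.mono h1 (Set.countable_iUnion fun q => Set.countable_iUnion fun hq => hcon q hq)
  simp only at hrs hJ
  obtain ⟨p, hp, hpC⟩ := MAC_cond hf hJ
  -- the index type of order type `ω₁`
  have hcard : #(W1.{0}) = ℵ₁ := mk_ord_toType _
  have hequiv : Nonempty (W1.{0} ≃ I) := by
    rw [← Cardinal.lift_mk_eq']
    rw [hcard, hI]
    simp
  obtain ⟨e⟩ := hequiv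
  set Good : Finset I → Prop := fun F => 0 < coinPi I (MAC_W f (r : ℝ) (s : ℝ) F) with hGood
  have hmono : ∀ F F' : Finset I, F' ⊆ F → Good F → Good F' := fun F F' h hF =>
    lt_of_lt_of_le hF (measure_mono (MAC_W_mono h))
  let P : Type := {F : Finset W1.{0} // p ⊆ F.map e.toEmbedding ∧ Good (F.map e.toEmbedding)}ᵒᵈ
  have hback : ∀ F : Finset I, (F.map e.symm.toEmbedding).map e.toEmbedding = F := by
    intro F
    ext i
    simp
  let mkP : ∀ F : Finset I, p ⊆ F → Good F → P := fun F h1 h2 =>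
    OrderDual.toDual ⟨F.map e.symm.toEmbedding, by rw [hback]; exact h1, by rw [hback]; exact h2⟩
  have : Nonempty P := ⟨mkP p subset_rfl hp⟩
  have hccc : ∀ A : Set P, (∀ a ∈ A, ∀ b ∈ A, a ≠ b → ¬ ∃ c, c ≤ a ∧ c ≤ b) → A.Countable := by
    intro A hA
    by_contra hAc
    obtain ⟨a, ha, b, hb, hab, hpos⟩ := MAC_ccc' hf hAc
      (fun a : P => (OrderDual.ofDual a).1.map e.toEmbedding)
      (fun a _ => (OrderDual.ofDual a).2.2)
    apply hA a ha b hb hab
    refine ⟨OrderDual.toDual ⟨(OrderDual.ofDual a).1 ∪ (OrderDual.ofDual b).1, ?_, ?_⟩, ?_, ?_⟩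
    · rw [Finset.map_union]
      exact (OrderDual.ofDual a).2.1.trans Finset.subset_union_left
    · rw [Finset.map_union]
      exact hpos
    · change (OrderDual.ofDual a).1 ⊆ (OrderDual.ofDual a).1 ∪ (OrderDual.ofDual b).1
      exact Finset.subset_union_left
    · change (OrderDual.ofDual b).1 ⊆ (OrderDual.ofDual a).1 ∪ (OrderDual.ofDual b).1
      exact Finset.subset_union_right
  have hseg : ∀ α : W1.{0}, (Set.Iic α).Countable := by
    intro α
    have h1 : (Set.Iio α).Countable := by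
      rw [← Cardinal.le_aleph0_iff_set_countable, ← Cardinal.lt_aleph_one_iff]
      have h2 := Cardinal.mk_Iio_lt α (by simp)
      rwa [hcard] at h2
    rw [← Set.Iio_union_right]
    exact h1.union (Set.countable_singleton _)
  obtain ⟨G, hGup, hGdir, hGD⟩ := hMA P hccc W1.{0}
    (fun α => {c : P | ∃ β ∈ (OrderDual.ofDual c).1, α < β}) hcard.le (by
      intro α c
      obtain ⟨t, ht1, ht2, i, hit, hiC⟩ := hpC ((OrderDual.ofDual c).1.map e.toEmbedding)
        (OrderDual.ofDual c).2.1 (OrderDual.ofDual c).2.2 (e '' Set.Iic α) ((hseg α).image e)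
      refine ⟨mkP t ((OrderDual.ofDual c).2.1.trans ht1) ht2, ⟨e.symm i, ?_, ?_⟩, ?_⟩
      · change e.symm i ∈ t.map e.symm.toEmbedding
        simp [hit]
      · by_contra hle
        push Not at hle
        exact hiC ⟨e.symm i, hle, e.apply_symm_apply i⟩
      · change (OrderDual.ofDual c).1 ⊆ t.map e.symm.toEmbedding
        intro β hβ
        have h1 : e β ∈ t := ht1 (Finset.mem_map_of_mem _ hβ)
        rw [Finset.mem_map]
        exact ⟨e β, h1, e.symm_apply_apply β⟩)
  set Γ : Set I := {i | ∃ c ∈ G, e.symm i ∈ (OrderDual.ofDual c).1} with hΓ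
  refine ⟨r, s, Γ, by exact_mod_cast hrs, ?_, ?_⟩
  · apply le_antisymm
    · rw [← hI]
      exact Cardinal.mk_set_le Γ
    · rw [Cardinal.aleph_one_le_iff, ← not_le, Cardinal.le_aleph0_iff_set_countable]
      intro hc
      have hU : (⋃ i ∈ Γ, Set.Iic (e.symm i)).Countable := hc.biUnion fun i _ => hseg _
      obtain ⟨α, hα⟩ : ∃ α : W1.{0}, α ∉ ⋃ i ∈ Γ, Set.Iic (e.symm i) := by
        by_contra h
        push Not at h
        have h1 : (Set.univ : Set W1.{0}).Countable := hU.mono fun α _ => h α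
        rw [← Cardinal.le_aleph0_iff_set_countable, Cardinal.mk_univ, hcard] at h1
        exact absurd h1 (not_le.mpr Cardinal.aleph0_lt_aleph_one)
      obtain ⟨c, hcG, β, hβ, hαβ⟩ := hGD α
      apply hα
      have h2 : e β ∈ Γ := ⟨c, hcG, by rwa [e.symm_apply_apply]⟩
      refine Set.mem_biUnion h2 ?_
      rw [e.symm_apply_apply]
      exact hαβ.le
  · intro F hF ε
    obtain ⟨c, hcG, hcF⟩ : ∃ c ∈ G, F ⊆ (OrderDual.ofDual c).1.map e.toEmbedding := by
      induction F using Finset.induction_on with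
      | empty =>
        have hne : Nonempty W1.{0} := ⟨e.symm (Classical.choice (by
          by_contra h
          rw [not_nonempty_iff] at h
          exact hunc (Set.countable_univ)))⟩
        obtain ⟨c, hcG, -⟩ := hGD (Classical.choice hne)
        exact ⟨c, hcG, Finset.empty_subset _⟩
      | insert i F hi ih =>
        obtain ⟨c, hcG, hcF⟩ := ih (fun j hj => hF j (Finset.mem_insert_of_mem hj))
        obtain ⟨c', hc'G, hc'⟩ := hF i (Finset.mem_insert_self i F)
        obtain ⟨d, hdG, hdc, hdc'⟩ := hGdir c hcG c' hc'G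
        have h1 : (OrderDual.ofDual c).1 ⊆ (OrderDual.ofDual d).1 := hdc
        have h2 : (OrderDual.ofDual c').1 ⊆ (OrderDual.ofDual d).1 := hdc'
        refine ⟨d, hdG, Finset.insert_subset ?_ (hcF.trans (Finset.map_subset_map.mpr h1))⟩
        rw [Finset.mem_map]
        exact ⟨e.symm i, h2 hc', e.apply_symm_apply i⟩
    exact MAC_pattern hf (hmono _ F hcF (OrderDual.ofDual c).2.2) ε

end MAC

end DualL1
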